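import Pool.Agent.H174.Exposed

/-!
# Exposed points of the unit balls of finite codimensional subspaces of `H^∞`

For a finite set `Φ` of bounded linear functionals on `H^∞` of the circle, a function `f` in the
common kernel `H^∞_Φ` is an exposed point of the unit ball of `H^∞_Φ` if and only if `‖f‖ = 1` and
`|f| = 1` on a set of positive measure.

Forward direction.  Let `‖f‖ = 1`, `|f| < 1` a.e.  Choose `Ψ ∈ L²`, `Ψ ≥ 0`, tending to infinity
as `|f| → 1`, and an analytic completion `Q` with `Re Q = Ψ`.  The functions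
`B_t = (1 + Q)^{-t}`, `t > 0`, lie in `H^∞`, they tend to `0` as `|f| → 1`, and
`Re B_t ≥ |B_t| / 2` for `t ≤ 1/2`.  The images of the increasing subspaces `B_{2^{-n}} H^∞` under
the finite rank map `T = (φ)_{φ ∈ Φ}` stabilise, so for some `n`, with `P = B_{2^{-n-1}}`, there is
`h₁ ∈ H^∞` with `T(P f) = T(P² h₁)`.  Then `h = P f - P² h₁ ∈ H^∞_Φ` is nonzero, it is annihilated
by every norm one functional `Λ` with `Λ f = 1`, and `‖f - ε h‖ ≤ 1` for small `ε > 0`.

Converse: the functional `g ↦ m(E)⁻¹ ∫_E g \bar f`, `E = {|f| = 1}`, exposes `f`, by the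
uniqueness theorem for functions of `H^∞` vanishing on a set of positive measure.
-/

open MeasureTheory AddCircle
open scoped ENNReal

namespace Pool.Agent.Results.MP_4ac5ef_an.ExposedIff

/-- The Banach space `L^∞` of the circle `ℝ/ℤ` with normalized Haar measure. -/
def Linf : Type := Lp ℂ ∞ (haarAddCircle : Measure UnitAddCircle)

noncomputable instance instLinfNACG : NormedAddCommGroup Linf :=
  Lp.instNormedAddCommGroup (p := ∞) (μ := (haarAddCircle : Measure UnitAddCircle)) (E := ℂ)

noncomputable instance instLinfNS : NormedSpace ℂ Linf :=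
  Lp.instNormedSpace (p := ∞) (μ := (haarAddCircle : Measure UnitAddCircle)) (E := ℂ)

/-- The function on the circle represented by an element of `L^∞`. -/
noncomputable def Linf.fn (f : Linf) : UnitAddCircle → ℂ :=
  ((show Lp ℂ ∞ (haarAddCircle : Measure UnitAddCircle) from f) : UnitAddCircle → ℂ)

/-- `H^∞` as a subspace of `L^∞`: the functions whose Fourier coefficients of negative index
vanish. -/
noncomputable def HinfSub : Submodule ℂ Linf where
  carrier := {f | ∀ n : ℤ, n < 0 → fourierCoeff f.fn n = 0}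
  add_mem' := fun {a b} ha hb => Pool.Agent.H174.Exposed.Hinf.add_mem' (a := a) (b := b) ha hb
  zero_mem' := Pool.Agent.H174.Exposed.Hinf.zero_mem'
  smul_mem' := fun c a ha => Pool.Agent.H174.Exposed.Hinf.smul_mem' c (x := a) ha

/-- The Banach space `H^∞` with the norm of `L^∞`. -/
def HInfty : Type := ↥HinfSub

noncomputable instance instHInftyNACG : NormedAddCommGroup HInfty :=
  Submodule.normedAddCommGroup HinfSub

noncomputable instance instHInftyNS : NormedSpace ℂ HInfty :=
  Submodule.normedSpace HinfSub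

/-- The function on the circle represented by an element of `H^∞`. -/
noncomputable def HInfty.fn (f : HInfty) : UnitAddCircle → ℂ :=
  Linf.fn (show ↥HinfSub from f).1

/-- `H^∞_Φ`: the common kernel in `H^∞` of the functionals in `Φ`, with the norm of `H^∞`. -/
def HPhi (Φ : Set (HInfty →L[ℂ] ℂ)) : Submodule ℂ HInfty where
  carrier := {f | ∀ φ ∈ Φ, φ f = 0}
  add_mem' := by
    intro a b ha hb φ hφ
    rw [map_add, ha φ hφ, hb φ hφ, add_zero]
  zero_mem' := by
    intro φ _
    exact map_zero φ
  smul_mem' := by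
    intro c a ha φ hφ
    rw [map_smul, ha φ hφ, smul_zero]

/-- `x` is an exposed point of the closed unit ball of the complex normed space `X`. -/
def IsExposedPoint {X : Type*} [NormedAddCommGroup X] [NormedSpace ℂ X] (x : X) : Prop :=
  ∃ φ : X →L[ℂ] ℂ, ‖φ‖ = 1 ∧ {y : X | ‖y‖ ≤ 1 ∧ φ y = 1} = {x}

/-- Exposed points of the unit balls of finite codimensional subspaces of `H^∞`. -/
theorem result (Φ : Set (HInfty →L[ℂ] ℂ)) (hΦ : Φ.Finite) (f : HPhi Φ) :
    IsExposedPoint f ↔
      ‖f‖ = 1 ∧ 0 < haarAddCircle {x : UnitAddCircle | ‖HInfty.fn (f : HInfty) x‖ = 1} :=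
  Pool.Agent.H174.Exposed.result0 Φ hΦ f

end Pool.Agent.Results.MP_4ac5ef_an.ExposedIff
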